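import Pool.Agent.L5helper64.CG.LawC

/-! LAW for helper98 (MP_e22585_pr): convergence in law of the mass with the singular insertion -/

set_option autoImplicit false
set_option linter.unusedSectionVars false
set_option linter.unusedVariables false

open MeasureTheory ProbabilityTheory Filter Topology Set
open scoped ENNReal BoundedContinuousFunction

namespace Pool.Agent.L5helper64.CG

open Pool.Agent.L5helper98.CG

noncomputable section

theorem lip_min {F : ℝ → ℝ} {C : ℝ} {L : NNReal} (hC : ∀ x y, dist (F x) (F y) ≤ C)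
    (hL : LipschitzWith L F) {s t : ℝ} (h : t ≤ s) : |F s - F t| ≤ (C + L) * min 1 (s - t) := by
  have hC0 : 0 ≤ C := dist_nonneg.trans (hC 0 0)
  have hL0 : (0 : ℝ) ≤ L := L.coe_nonneg
  have h1 := hC s t
  have h2 := hL.dist_le_mul s t
  rw [Real.dist_eq] at h1 h2
  rw [Real.dist_eq, abs_of_nonneg (sub_nonneg.2 h)] at h2
  rcases le_total 1 (s - t) with h3 | h3
  · rw [min_eq_left h3, mul_one]
    linarith
  · rw [min_eq_right h3, add_mul]
    have := mul_nonneg hC0 (sub_nonneg.2 h)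
    linarith

theorem LAW_holds (hL1 : St_LAW1) (hINS : St_INS) (hBDD : St_BDD) (hPOSW : St_POSW) : St_LAW := by
  intro c r μ Ω _ P ω hF Ω' _ P' _ M hM φ hφ hφ0 q hq
  have hr := hF.adm
  have hμ := hF.mu_pos
  have hprob := hF.prob
  obtain ⟨hlaw, hatom⟩ := hL1 c r μ Ω P ω hF Ω' P' M hM
  -- the bound of `φ`
  obtain ⟨Φ', hΦ'⟩ := (isCompact_Icc (a := (0 : ℝ)) (b := 1)).exists_bound_of_continuousOn
    hφ.continuousOn
  set Φ : ℝ := |Φ'| with hΦdef
  have hΦ0 : 0 ≤ Φ := abs_nonneg _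
  have hΦ : ∀ u ∈ Ico (0 : ℝ) 1, φ u ≤ Φ := fun u hu => by
    have := hΦ' u ⟨hu.1, hu.2.le⟩
    rw [Real.norm_eq_abs] at this
    exact (le_abs_self _).trans (this.trans (le_abs_self _))
  -- the good `ε`
  have hbdd := hBDD c r μ hr hμ (hF.field.frequently.mono fun ε hε =>
    ⟨Ω ε, inferInstance, P ε, hprob ε, ω ε, hε⟩)
  have hgood : ∀ᶠ ε in 𝓝[>] (0 : ℝ), 0 < ε ∧ (∃ K : ℝ, ∀ u ∈ Ico (0 : ℝ) 1,
      |cv r μ ε (dst c u 0)| ≤ K) ∧
      (∀ᵐ x ∂(P ε), IntegrableOn (fun u => Real.exp (ω ε u x)) (Ico 0 1)) ∧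
      (∀ w : ℝ → ℝ, Measurable w → Measurable (mass w (ω ε))) := by
    have h1 : ∀ᶠ ε in 𝓝[>] (0 : ℝ), ε < 1 / 2 :=
      eventually_nhdsWithin_of_eventually_nhds (eventually_lt_nhds (by norm_num))
    filter_upwards [hF.field, h1, self_mem_nhdsWithin] with ε hε hε2 hε0
    have hε0' : 0 < ε := hε0
    haveI := hprob ε
    obtain ⟨B, hB⟩ := hbdd ε ⟨hε0', hε2⟩
    have h2 := hPOSW c r μ ε hr hμ hε0' hε2 (Ω ε) (P ε) (ω ε) hε
    exact ⟨hε0', cv_bound hμ hε0' hB, h2.1, h2.2.1⟩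
  have hsmall : ∀ d : ℝ, 0 < d → ∀ᶠ ε in 𝓝[>] (0 : ℝ), ε ≤ d / 2 := fun d hd =>
    eventually_nhdsWithin_of_eventually_nhds (eventually_le_nhds (by positivity))
  have ha : ∀ η : ℝ, 0 < η → ∃ m : ℕ, ∀ k ≥ m, ∀ᶠ ε in 𝓝[>] (0 : ℝ),
      ∫ x, min 1 (mass (GG c r φ μ ε q) (ω ε) x - mass (wt r φ (μ * q) (dn k)) (ω ε) x) ∂(P ε) ≤
        (Φ + 1) * η := by
    intro η hη
    obtain ⟨δ₀, hδ₀, hI⟩ := hINS c r μ Ω P ω hF q hq η hη
    obtain ⟨m, hm⟩ := (dn_lim.eventually_lt_const hδ₀).exists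
    refine ⟨m, fun k hk => ?_⟩
    have hk' : dn k ≤ δ₀ := (dn_anti hk).trans hm.le
    filter_upwards [hI (dn k) (dn_pos k) hk', hgood, hsmall (dn k) (dn_pos k)] with ε h1 h2 h3
    haveI := hprob ε
    obtain ⟨hε0, ⟨K, hK⟩, hint, hmm⟩ := h2
    exact E1 hr hφ hφ0 hΦ hΦ0 (dn_pos k) hε0 h3 hK hint hmm hη h1
  -- the limit mass is finite
  have hLi : ∀ᵐ y ∂P', Li r φ (μ * q) (M y) < ∞ := by
    refine Li_fin hr hφ hφ0 hM.meas hM.fin fun η hη => ?_
    have hη' : 0 < η / (Φ + 1) := by positivity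
    obtain ⟨m, hm⟩ := ha _ hη'
    refine ⟨m, fun n hn => ?_⟩
    have hw : Continuous fun u => wt r φ (μ * q) (dn n) u - wt r φ (μ * q) (dn m) u :=
      (wt_cont hr hφ (dn_pos n)).sub (wt_cont hr hφ (dn_pos m))
    have hw0 : ∀ u, 0 ≤ wt r φ (μ * q) (dn n) u - wt r φ (μ * q) (dn m) u := fun u =>
      sub_nonneg.2 (wt_mono hr hφ0 (dn_pos n) (dn_anti hn) u)
    refine le_of_tendsto (hlaw _ hw hw0 f1) ?_
    filter_upwards [hm m le_rfl, hgood, hsmall (dn n) (dn_pos n)] with ε h1 h2 h3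
    haveI := hprob ε
    obtain ⟨hε0, ⟨K, hK⟩, hint, hmm⟩ := h2
    refine (E2 hr hφ hφ0 (dn_pos n) (dn_anti hn) hε0 h3 hK hint hmm).trans (h1.trans ?_)
    rw [mul_div_cancel₀ _ (by positivity : Φ + 1 ≠ 0)]
  refine ⟨?_, hatom, ?_, ?_⟩
  · filter_upwards [hLi] with y hy
    exact intOn_Ioo hr hφ hφ0 hy
  · simp_rw [integral_Ioo hr hφ hφ0]
    exact (Li_meas hr hφ hM.meas).ennreal_toReal.aemeasurable
  · simp_rw [integral_Ioo hr hφ hφ0]
    have hYm : Measurable fun y => (Li r φ (μ * q) (M y)).toReal :=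
      (Li_meas hr hφ hM.meas).ennreal_toReal
    have hGm : ∀ᶠ ε in 𝓝[>] (0 : ℝ), Measurable (mass (GG c r φ μ ε q) (ω ε)) := by
      filter_upwards [hgood] with ε h2
      obtain ⟨hε0, ⟨K, hK⟩, hint, hmm⟩ := h2
      exact mass_meas (Wok_GG hr hφ hε0 hK) hmm
    intro f
    refine lip_to_bdd hprob (Z := fun ε => mass (GG c r φ μ ε q) (ω ε)) ?_ hYm.aemeasurable ?_ f
    · filter_upwards [hGm] with ε h
      exact h.aemeasurable
    intro F hC hLip
    obtain ⟨C, hC⟩ := hC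
    obtain ⟨L, hL⟩ := hLip
    have hFc : Continuous F := hL.continuous
    have hC0 : 0 ≤ C := dist_nonneg.trans (hC 0 0)
    have hFb : ∀ t, ‖F t‖ ≤ ‖F 0‖ + C := fun t => by
      have := hC t 0
      rw [dist_eq_norm] at this
      have h2 := norm_le_norm_add_norm_sub' (F t) (F 0)
      linarith
    let F' : ℝ →ᵇ ℝ := ⟨⟨F, hFc⟩, C, hC⟩
    -- the limits along the cut-offs
    have hlimn : Tendsto (fun n => ∫ y, F (Yn r φ (μ * q) (M y) n) ∂P') atTop
        (𝓝 (∫ y, F (Li r φ (μ * q) (M y)).toReal ∂P')) := by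
      refine tendsto_integral_of_dominated_convergence (fun _ => ‖F 0‖ + C) (fun n => ?_)
        (integrable_const _) (fun n => ae_of_all _ fun y => hFb _) ?_
      · exact (hFc.measurable.comp (Yn_meas hr hφ hφ0 hM.meas n)).aestronglyMeasurable
      · filter_upwards [hLi, hM.fin] with y h1 h2
        exact (hFc.tendsto _).comp (Yn_tendsto hr hφ hφ0 h2 h1)
    rw [Metric.tendsto_nhds]
    intro e he
    set D : ℝ := (C + L) * (Φ + 1) with hD
    have hL0 : (0 : ℝ) ≤ L := L.coe_nonneg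
    have hD0 : 0 ≤ D := by positivity
    have hη : 0 < e / (3 * (D + 1)) := by positivity
    obtain ⟨m, hm⟩ := ha _ hη
    obtain ⟨n, hn1, hn2⟩ := ((eventually_ge_atTop m).and
      (Metric.tendsto_nhds.1 hlimn (e / 3) (by positivity))).exists
    have h3 := Metric.tendsto_nhds.1 (hlaw (wt r φ (μ * q) (dn n)) (wt_cont hr hφ (dn_pos n))
      (fun u => wt_nonneg hr hφ0 _ u) F') (e / 3) (by positivity)
    filter_upwards [hm n hn1, h3, hgood, hsmall (dn n) (dn_pos n)] with ε k1 k2 k3 k4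
    haveI := hprob ε
    obtain ⟨hε0, ⟨K, hK⟩, hint, hmm⟩ := k3
    have wG := Wok_GG (q := q) (φ := φ) hr hφ hε0 hK
    have wW := Wok.of_continuous (wt_cont (a := μ * q) hr hφ (dn_pos n))
    have mG := mass_meas wG hmm
    have mW := mass_meas wW hmm
    have k5 : |∫ x, F (mass (GG c r φ μ ε q) (ω ε) x) ∂(P ε) -
        ∫ x, F (mass (wt r φ (μ * q) (dn n)) (ω ε) x) ∂(P ε)| ≤
        (C + L) * ((Φ + 1) * (e / (3 * (D + 1)))) := by
      have i1 : Integrable (fun x => F (mass (GG c r φ μ ε q) (ω ε) x)) (P ε) :=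
        Integrable.of_bound (hFc.measurable.comp mG).aestronglyMeasurable (‖F 0‖ + C)
          (ae_of_all _ fun x => hFb _)
      have i2 : Integrable (fun x => F (mass (wt r φ (μ * q) (dn n)) (ω ε) x)) (P ε) :=
        Integrable.of_bound (hFc.measurable.comp mW).aestronglyMeasurable (‖F 0‖ + C)
          (ae_of_all _ fun x => hFb _)
      have hle : ∀ᵐ x ∂(P ε), mass (wt r φ (μ * q) (dn n)) (ω ε) x ≤
          mass (GG c r φ μ ε q) (ω ε) x := by
        filter_upwards [hint] with x hx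
        exact mass_mono wW wG hx fun u hu => rest_nonneg hr hφ0 (dn_pos n) k4 hu
      have i3 : Integrable (fun x => min 1 (mass (GG c r φ μ ε q) (ω ε) x -
          mass (wt r φ (μ * q) (dn n)) (ω ε) x)) (P ε) := by
        refine Integrable.of_bound (C := 1) (measurable_const.min (mG.sub mW)).aestronglyMeasurable ?_
        filter_upwards [hle] with x hx
        rw [Real.norm_eq_abs, abs_of_nonneg (le_min zero_le_one (sub_nonneg.2 hx))]
        exact min_le_left _ _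
      rw [← integral_sub i1 i2]
      refine (abs_integral_le_integral_abs).trans ?_
      have k6 : ∫ x, |F (mass (GG c r φ μ ε q) (ω ε) x) -
          F (mass (wt r φ (μ * q) (dn n)) (ω ε) x)| ∂(P ε) ≤
          ∫ x, (C + L) * min 1 (mass (GG c r φ μ ε q) (ω ε) x -
            mass (wt r φ (μ * q) (dn n)) (ω ε) x) ∂(P ε) := by
        refine integral_mono_ae (i1.sub i2).abs (i3.const_mul _) ?_
        filter_upwards [hle] with x hx
        exact lip_min hC hL hx
      refine k6.trans ?_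
      rw [integral_const_mul]
      exact mul_le_mul_of_nonneg_left k1 (by positivity)
    have k7 : (C + L) * ((Φ + 1) * (e / (3 * (D + 1)))) ≤ e / 3 := by
      have : (C + L) * ((Φ + 1) * (e / (3 * (D + 1)))) = D / (D + 1) * (e / 3) := by
        rw [hD]
        field_simp
      rw [this]
      have h8 : D / (D + 1) ≤ 1 := by
        rw [div_le_one (by positivity)]
        linarith
      have h9 : 0 ≤ e / 3 := by positivity
      calc D / (D + 1) * (e / 3) ≤ 1 * (e / 3) := mul_le_mul_of_nonneg_right h8 h9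
        _ = e / 3 := one_mul _
    have k2' : |∫ x, F (mass (wt r φ (μ * q) (dn n)) (ω ε) x) ∂(P ε) -
        ∫ y, F (Yn r φ (μ * q) (M y) n) ∂P'| < e / 3 := k2
    have hn2' : |∫ y, F (Yn r φ (μ * q) (M y) n) ∂P' -
        ∫ y, F (Li r φ (μ * q) (M y)).toReal ∂P'| < e / 3 := hn2
    rw [Real.dist_eq]
    have k8 := k5.trans k7
    rw [abs_le] at k8
    rw [abs_lt] at k2' hn2' ⊢
    constructor <;> linarith

end

end Pool.Agent.L5helper64.CG
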