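import Pool.Agent.L5helper98.CG.Defs

/-! LAW for helper98 (MP_e22585_pr): the weights -/

set_option autoImplicit false

open MeasureTheory ProbabilityTheory Filter Topology Set
open scoped ENNReal BoundedContinuousFunction

namespace Pool.Agent.L5helper64.CG

open Pool.Agent.L5helper98.CG

noncomputable section

/-- the cut-off -/
def chi (δ u : ℝ) : ℝ := max 0 (min 1 (min (2 * u / δ - 1) (2 * (1 - u) / δ - 1)))

lemma chi_cont (δ : ℝ) : Continuous (chi δ) := by
  unfold chi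
  fun_prop

lemma chi_nonneg (δ u : ℝ) : 0 ≤ chi δ u := le_max_left _ _

lemma chi_le_one (δ u : ℝ) : chi δ u ≤ 1 := max_le zero_le_one (min_le_left _ _)

lemma chi_eq_one {δ u : ℝ} (hδ : 0 < δ) (h1 : δ ≤ u) (h2 : u ≤ 1 - δ) : chi δ u = 1 := by
  unfold chi
  have e1 : 1 ≤ 2 * u / δ - 1 := by
    have : 2 ≤ 2 * u / δ := by rw [le_div_iff₀ hδ]; linarith
    linarith
  have e2 : 1 ≤ 2 * (1 - u) / δ - 1 := by
    have : 2 ≤ 2 * (1 - u) / δ := by rw [le_div_iff₀ hδ]; linarith
    linarith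
  rw [min_eq_left (le_min e1 e2), max_eq_right zero_le_one]

lemma chi_eq_zero_left {δ u : ℝ} (hδ : 0 < δ) (h : u ≤ δ / 2) : chi δ u = 0 := by
  unfold chi
  have e1 : 2 * u / δ - 1 ≤ 0 := by
    have : 2 * u / δ ≤ 1 := by rw [div_le_one hδ]; linarith
    linarith
  exact max_eq_left ((min_le_right _ _).trans ((min_le_left _ _).trans e1))

lemma chi_eq_zero_right {δ u : ℝ} (hδ : 0 < δ) (h : 1 - δ / 2 ≤ u) : chi δ u = 0 := by
  unfold chi
  have e1 : 2 * (1 - u) / δ - 1 ≤ 0 := by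
    have : 2 * (1 - u) / δ ≤ 1 := by rw [div_le_one hδ]; linarith
    linarith
  exact max_eq_left ((min_le_right _ _).trans ((min_le_right _ _).trans e1))

lemma chi_anti {δ δ' u : ℝ} (hδ : 0 < δ) (h : δ ≤ δ') (h0 : 0 ≤ u) (h1 : u ≤ 1) :
    chi δ' u ≤ chi δ u := by
  unfold chi
  have e1 : 2 * u / δ' ≤ 2 * u / δ := div_le_div_of_nonneg_left (by linarith) hδ h
  have e2 : 2 * (1 - u) / δ' ≤ 2 * (1 - u) / δ := div_le_div_of_nonneg_left (by linarith) hδ h
  exact max_le_max le_rfl (min_le_min le_rfl (min_le_min (by linarith) (by linarith)))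

/-- the limit weight -/
def hh (r φ : ℝ → ℝ) (a : ℝ) : ℝ → ℝ := (Ioo (0 : ℝ) 1).indicator fun u => r u ^ a * φ u

/-- the weight with the cut-off -/
def wt (r φ : ℝ → ℝ) (a δ u : ℝ) : ℝ := chi δ u * hh r φ a u

variable {c : Bool} {r φ : ℝ → ℝ} {a μ q : ℝ}

lemma contOn (hr : Adm c r) (hφ : Continuous φ) (a : ℝ) :
    ContinuousOn (fun u => r u ^ a * φ u) (Ioo (0 : ℝ) 1) := by
  refine ContinuousOn.mul ?_ hφ.continuousOn
  intro u hu
  exact (hr.smooth.continuousOn u hu).rpow_const (Or.inl (hr.pos u hu).ne')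

lemma hh_meas (hr : Adm c r) (hφ : Continuous φ) (a : ℝ) : Measurable (hh r φ a) := by
  classical
  unfold hh
  rw [← Set.piecewise_eq_indicator]
  exact ContinuousOn.measurable_piecewise (contOn hr hφ a) continuousOn_const measurableSet_Ioo

lemma hh_nonneg (hr : Adm c r) (hφ : ∀ u, 0 < φ u) (u : ℝ) : 0 ≤ hh r φ a u := by
  unfold hh
  refine indicator_nonneg (fun u hu => ?_) u
  exact mul_nonneg (Real.rpow_nonneg (hr.pos u hu).le _) (hφ u).le

lemma wt_nonneg (hr : Adm c r) (hφ : ∀ u, 0 < φ u) (δ u : ℝ) : 0 ≤ wt r φ a δ u :=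
  mul_nonneg (chi_nonneg _ _) (hh_nonneg hr hφ u)

lemma wt_le (hr : Adm c r) (hφ : ∀ u, 0 < φ u) (δ u : ℝ) : wt r φ a δ u ≤ hh r φ a u :=
  mul_le_of_le_one_left (hh_nonneg hr hφ u) (chi_le_one _ _)

lemma wt_mono (hr : Adm c r) (hφ : ∀ u, 0 < φ u) {δ δ' : ℝ} (hδ : 0 < δ) (h : δ ≤ δ') (u : ℝ) :
    wt r φ a δ' u ≤ wt r φ a δ u := by
  unfold wt
  by_cases hu : u ∈ Ioo (0 : ℝ) 1
  · exact mul_le_mul_of_nonneg_right (chi_anti hδ h hu.1.le hu.2.le) (hh_nonneg hr hφ u)
  · have h0 : hh r φ a u = 0 := indicator_of_notMem hu _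
    rw [h0, mul_zero, mul_zero]

lemma wt_cont (hr : Adm c r) (hφ : Continuous φ) {δ : ℝ} (hδ : 0 < δ) :
    Continuous (wt r φ a δ) := by
  rw [continuous_iff_continuousAt]
  intro u
  by_cases hu : u ∈ Ioo (0 : ℝ) 1
  · have h1 : ContinuousAt (fun u => chi δ u * (r u ^ a * φ u)) u :=
      (chi_cont δ).continuousAt.mul ((contOn hr hφ a).continuousAt (Ioo_mem_nhds hu.1 hu.2))
    refine h1.congr ?_
    filter_upwards [Ioo_mem_nhds hu.1 hu.2] with v hv
    unfold wt hh
    rw [indicator_of_mem hv]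
  · have h2 : ∀ᶠ v in 𝓝 u, wt r φ a δ v = 0 := by
      rw [mem_Ioo, not_and_or, not_lt, not_lt] at hu
      rcases hu with hu | hu
      · filter_upwards [Iio_mem_nhds (show u < δ / 2 by linarith)] with v hv
        unfold wt
        rw [chi_eq_zero_left hδ (le_of_lt hv), zero_mul]
      · filter_upwards [Ioi_mem_nhds (show 1 - δ / 2 < u by linarith)] with v hv
        unfold wt
        rw [chi_eq_zero_right hδ (le_of_lt hv), zero_mul]
    exact (continuousAt_const (y := (0 : ℝ))).congr (by filter_upwards [h2] with v hv; exact hv.symm)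

lemma wt_tendsto (r φ : ℝ → ℝ) (a u : ℝ) {d : ℕ → ℝ} (hd : ∀ n, 0 < d n)
    (hd0 : Tendsto d atTop (𝓝 0)) :
    Tendsto (fun n => wt r φ a (d n) u) atTop (𝓝 (hh r φ a u)) := by
  by_cases hu : u ∈ Ioo (0 : ℝ) 1
  · have h1 : ∀ᶠ n in atTop, d n < min u (1 - u) :=
      hd0.eventually_lt_const (lt_min hu.1 (by linarith [hu.2]))
    refine tendsto_const_nhds.congr' ?_
    filter_upwards [h1] with n hn
    unfold wt
    rw [chi_eq_one (hd n) (hn.le.trans (min_le_left _ _)) (by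
      have := hn.le.trans (min_le_right _ _); linarith), one_mul]
  · have h0 : hh r φ a u = 0 := indicator_of_notMem hu _
    unfold wt
    rw [h0]
    simp

/-- the weight of the field -/
def GG (c : Bool) (r φ : ℝ → ℝ) (μ ε q u : ℝ) : ℝ := φ u * Real.exp (-(q * cv r μ ε (dst c u 0)))

lemma dst_zero (c : Bool) {u : ℝ} (h0 : 0 ≤ u) :
    dst c u 0 = if c = true then min u (1 - u) else u := by
  unfold dst
  rw [sub_zero, abs_of_nonneg h0]

/-- on the support of the cut-off the weight is `r ^ (μ q) φ` -/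
lemma wt_eq (hr : Adm c r) {δ ε : ℝ} (hδ : 0 < δ) (hδε : ε ≤ δ / 2) {u : ℝ}
    (hu : u ∈ Ico (0 : ℝ) 1) : wt r φ (μ * q) δ u = chi δ u * GG c r φ μ ε q u := by
  unfold wt
  by_cases h1 : u ≤ δ / 2
  · rw [chi_eq_zero_left hδ h1, zero_mul, zero_mul]
  by_cases h2 : 1 - δ / 2 ≤ u
  · rw [chi_eq_zero_right hδ h2, zero_mul, zero_mul]
  rw [not_le] at h1 h2
  have hu' : u ∈ Ioo (0 : ℝ) 1 := ⟨by linarith, by linarith⟩
  congr 1
  unfold hh GG
  rw [indicator_of_mem hu', dst_zero c hu.1]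
  have h3 : cv r μ ε (if c = true then min u (1 - u) else u) = -(μ * Real.log (r u)) := by
    split_ifs with hc
    · have h4 : ε ≤ min u (1 - u) := le_min (by linarith) (by linarith)
      unfold cv
      rw [if_pos h4]
      rcases le_total u (1 - u) with h5 | h5
      · rw [min_eq_left h5]
      · rw [min_eq_right h5]
        have h6 := hr.bdry
        rw [if_pos hc] at h6
        rw [← h6 u hu']
    · unfold cv
      rw [if_pos (by linarith)]
  rw [h3, mul_comm (φ u), Real.rpow_def_of_pos (hr.pos u hu')]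
  congr 2
  ring

lemma dst_mem (c : Bool) {u : ℝ} (hu : u ∈ Ico (0 : ℝ) 1) :
    0 ≤ dst c u 0 ∧ dst c u 0 < 1 ∧ (c = true → dst c u 0 ≤ 1 / 2) := by
  rw [dst_zero c hu.1]
  split_ifs with hc
  · refine ⟨le_min hu.1 (by linarith [hu.2]), (min_le_left _ _).trans_lt hu.2, fun _ => ?_⟩
    rcases le_total u (1 / 2) with h | h
    · exact (min_le_left _ _).trans h
    · exact (min_le_right _ _).trans (by linarith)
  · exact ⟨hu.1, hu.2, fun h => absurd h hc⟩

lemma cv_bound {ε B : ℝ} (hμ : 0 < μ) (hε : 0 < ε)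
    (hB : ∀ d : ℝ, ε ≤ d → d < 1 → (c = true → d ≤ 1 / 2) → |Real.log (r d)| ≤ B) :
    ∃ K : ℝ, ∀ u ∈ Ico (0 : ℝ) 1, |cv r μ ε (dst c u 0)| ≤ K := by
  refine ⟨μ * |B| + |μ| * (|Real.log (r ε)| + |ε * deriv (fun t => Real.log (r t)) ε|), fun u hu => ?_⟩
  obtain ⟨h0, h1, h2⟩ := dst_mem c hu
  set d := dst c u 0
  unfold cv
  split_ifs with h
  · have h3 := (hB d h h1 h2).trans (le_abs_self B)
    rw [abs_neg, abs_mul, abs_of_pos hμ]
    have h4 : 0 ≤ μ * (|Real.log (r ε)| + |ε * deriv (fun t => Real.log (r t)) ε|) := by positivity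
    have h5 := mul_le_mul_of_nonneg_left h3 hμ.le
    linarith
  · rw [not_le] at h
    have h3 : |1 - d / ε| ≤ 1 := by
      have h4 : 0 ≤ d / ε := div_nonneg h0 hε.le
      have h5 : d / ε ≤ 1 := by rw [div_le_one hε]; exact h.le
      rw [abs_le]
      constructor <;> linarith
    rw [abs_mul]
    have h6 : |-Real.log (r ε) + (1 - d / ε) * (ε * deriv (fun t => Real.log (r t)) ε)| ≤
        |Real.log (r ε)| + |ε * deriv (fun t => Real.log (r t)) ε| := by
      refine (abs_add_le _ _).trans ?_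
      rw [abs_neg, abs_mul]
      have := mul_le_mul_of_nonneg_right h3 (abs_nonneg (ε * deriv (fun t => Real.log (r t)) ε))
      rw [one_mul] at this
      linarith
    have h7 := mul_le_mul_of_nonneg_left h6 (abs_nonneg μ)
    have h8 : 0 ≤ μ * |B| := by positivity
    linarith

/-- a measurable version of the covariance -/
lemma cv_meas (hr : Adm c r) {ε : ℝ} (hε : 0 < ε) : ∃ g : ℝ → ℝ, Measurable g ∧
    ∀ u ∈ Ico (0 : ℝ) 1, g u = cv r μ ε (dst c u 0) := by
  classical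
  have hrm : Measurable ((Ioo (0 : ℝ) 1).indicator r) := by
    rw [← Set.piecewise_eq_indicator]
    exact ContinuousOn.measurable_piecewise hr.smooth.continuousOn continuousOn_const
      measurableSet_Ioo
  have hdm : Measurable (fun u : ℝ => dst c u 0) := by
    unfold dst
    split_ifs <;> fun_prop
  refine ⟨fun u => if ε ≤ dst c u 0 then -(μ * Real.log ((Ioo (0 : ℝ) 1).indicator r (dst c u 0)))
    else μ * (-Real.log (r ε) + (1 - dst c u 0 / ε) * (ε * deriv (fun t => Real.log (r t)) ε)),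
    ?_, fun u hu => ?_⟩
  · refine Measurable.ite (measurableSet_le measurable_const hdm) ?_ ?_
    · exact ((Real.measurable_log.comp (hrm.comp hdm)).const_mul μ).neg
    · exact (((measurable_const.sub (hdm.div_const ε)).mul_const _).const_add _).const_mul μ
  · obtain ⟨h0, h1, h2⟩ := dst_mem c hu
    unfold cv
    by_cases h : ε ≤ dst c u 0
    · simp only [if_pos h]
      rw [indicator_of_mem (show dst c u 0 ∈ Ioo (0 : ℝ) 1 from ⟨by linarith, h1⟩)]
    · simp only [if_neg h]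

end

end Pool.Agent.L5helper64.CG
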