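import Pool.Agent.L5helper64.CG.LawA

/-! LAW for helper98 (MP_e22585_pr): the masses at a fixed `ε` -/

set_option autoImplicit false
set_option linter.unusedSectionVars false

open MeasureTheory ProbabilityTheory Filter Topology Set
open scoped ENNReal BoundedContinuousFunction

namespace Pool.Agent.L5helper64.CG

open Pool.Agent.L5helper98.CG

noncomputable section

/-- measurable and bounded on `[0,1)` -/
def Wok (w : ℝ → ℝ) : Prop :=
  (∃ w' : ℝ → ℝ, Measurable w' ∧ ∀ u ∈ Ico (0 : ℝ) 1, w' u = w u) ∧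
    ∃ K : ℝ, ∀ u ∈ Ico (0 : ℝ) 1, |w u| ≤ K

lemma Wok.sub {w₁ w₂ : ℝ → ℝ} (h₁ : Wok w₁) (h₂ : Wok w₂) : Wok fun u => w₁ u - w₂ u := by
  obtain ⟨⟨v₁, m₁, e₁⟩, K₁, k₁⟩ := h₁
  obtain ⟨⟨v₂, m₂, e₂⟩, K₂, k₂⟩ := h₂
  refine ⟨⟨fun u => v₁ u - v₂ u, m₁.sub m₂, fun u hu => ?_⟩, K₁ + K₂, fun u hu => ?_⟩
  · change v₁ u - v₂ u = w₁ u - w₂ u
    rw [e₁ u hu, e₂ u hu]
  · have h1 := k₁ u hu
    have h2 := k₂ u hu
    have h3 := abs_sub (w₁ u) (w₂ u)
    linarith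

lemma Wok.const_mul {w : ℝ → ℝ} (h : Wok w) (a : ℝ) : Wok fun u => a * w u := by
  obtain ⟨⟨v, m, e⟩, K, k⟩ := h
  refine ⟨⟨fun u => a * v u, m.const_mul a, fun u hu => ?_⟩, |a| * K, fun u hu => ?_⟩
  · simp only []
    rw [e u hu]
  · rw [abs_mul]
    exact mul_le_mul_of_nonneg_left (k u hu) (abs_nonneg a)

lemma Wok.of_continuous {w : ℝ → ℝ} (h : Continuous w) : Wok w := by
  refine ⟨⟨w, h.measurable, fun _ _ => rfl⟩, ?_⟩
  obtain ⟨K, hK⟩ := (isCompact_Icc (a := (0 : ℝ)) (b := 1)).exists_bound_of_continuousOn h.continuousOn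
  exact ⟨K, fun u hu => by
    have := hK u ⟨hu.1, hu.2.le⟩
    rwa [Real.norm_eq_abs] at this⟩

variable {Ω : Type} [MeasurableSpace Ω] {ω : ℝ → Ω → ℝ} {x : Ω}

lemma int_of_Wok {w : ℝ → ℝ} (h : Wok w) (hx : IntegrableOn (fun u => Real.exp (ω u x)) (Ico 0 1)) :
    IntegrableOn (fun u => w u * Real.exp (ω u x)) (Ico 0 1) := by
  obtain ⟨⟨v, m, e⟩, K, k⟩ := h
  have h1 : IntegrableOn (fun u => v u * Real.exp (ω u x)) (Ico 0 1) := by
    refine Integrable.bdd_mul (c := K) hx m.aestronglyMeasurable ?_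
    refine ae_restrict_of_forall_mem measurableSet_Ico fun u hu => ?_
    rw [e u hu, Real.norm_eq_abs]
    exact k u hu
  refine h1.congr_fun (fun u hu => ?_) measurableSet_Ico
  simp only []
  rw [e u hu]

lemma mass_meas {w : ℝ → ℝ} (h : Wok w) (hm : ∀ w : ℝ → ℝ, Measurable w → Measurable (mass w ω)) :
    Measurable (mass w ω) := by
  obtain ⟨⟨v, m, e⟩, -⟩ := h
  have h1 : mass w ω = mass v ω := by
    funext x
    unfold mass
    refine setIntegral_congr_fun measurableSet_Ico fun u hu => ?_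
    rw [e u hu]
  rw [h1]
  exact hm v m

lemma mass_mono {w₁ w₂ : ℝ → ℝ} (h₁ : Wok w₁) (h₂ : Wok w₂)
    (hx : IntegrableOn (fun u => Real.exp (ω u x)) (Ico 0 1))
    (h : ∀ u ∈ Ico (0 : ℝ) 1, w₁ u ≤ w₂ u) : mass w₁ ω x ≤ mass w₂ ω x :=
  setIntegral_mono_on (int_of_Wok h₁ hx) (int_of_Wok h₂ hx) measurableSet_Ico fun u hu =>
    mul_le_mul_of_nonneg_right (h u hu) (Real.exp_pos _).le

lemma mass_nonneg {w : ℝ → ℝ} (h : ∀ u ∈ Ico (0 : ℝ) 1, 0 ≤ w u) : 0 ≤ mass w ω x :=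
  setIntegral_nonneg measurableSet_Ico fun u hu => mul_nonneg (h u hu) (Real.exp_pos _).le

lemma mass_sub {w₁ w₂ : ℝ → ℝ} (h₁ : Wok w₁) (h₂ : Wok w₂)
    (hx : IntegrableOn (fun u => Real.exp (ω u x)) (Ico 0 1)) :
    mass (fun u => w₁ u - w₂ u) ω x = mass w₁ ω x - mass w₂ ω x := by
  unfold mass
  rw [← integral_sub (int_of_Wok h₁ hx) (int_of_Wok h₂ hx)]
  refine integral_congr_ae (ae_of_all _ fun u => ?_)
  simp only [sub_mul]

lemma mass_const_mul (w : ℝ → ℝ) (a : ℝ) : mass (fun u => a * w u) ω x = a * mass w ω x := by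
  unfold mass
  rw [← integral_const_mul]
  refine integral_congr_ae (ae_of_all _ fun u => ?_)
  simp only [mul_assoc]

variable {c : Bool} {r φ : ℝ → ℝ} {μ q ε δ : ℝ}

/-- the weight near the end points -/
def JJ (c : Bool) (r : ℝ → ℝ) (μ ε q δ : ℝ) : ℝ → ℝ :=
  (Ico 0 δ ∪ Ico (1 - δ) 1).indicator fun u => Real.exp (-(q * cv r μ ε (dst c u 0)))

lemma Wok_exp (hr : Adm c r) (hε : 0 < ε) {K : ℝ}
    (hK : ∀ u ∈ Ico (0 : ℝ) 1, |cv r μ ε (dst c u 0)| ≤ K) :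
    Wok fun u => Real.exp (-(q * cv r μ ε (dst c u 0))) := by
  obtain ⟨g, hg, hgu⟩ := cv_meas (μ := μ) hr hε
  refine ⟨⟨fun u => Real.exp (-(q * g u)), ?_, fun u hu => ?_⟩, Real.exp (|q| * K), fun u hu => ?_⟩
  · exact Real.measurable_exp.comp (hg.const_mul q).neg
  · simp only []
    rw [hgu u hu]
  · rw [abs_of_pos (Real.exp_pos _)]
    refine Real.exp_le_exp.2 ((neg_le_abs _).trans ?_)
    rw [abs_mul]
    exact mul_le_mul_of_nonneg_left (hK u hu) (abs_nonneg q)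

lemma Wok_JJ (hr : Adm c r) (hε : 0 < ε) {K : ℝ}
    (hK : ∀ u ∈ Ico (0 : ℝ) 1, |cv r μ ε (dst c u 0)| ≤ K) : Wok (JJ c r μ ε q δ) := by
  obtain ⟨⟨v, m, e⟩, B, k⟩ := Wok_exp (q := q) hr hε hK
  refine ⟨⟨(Ico 0 δ ∪ Ico (1 - δ) 1).indicator v,
    m.indicator (measurableSet_Ico.union measurableSet_Ico), fun u hu => ?_⟩, B, fun u hu => ?_⟩
  · unfold JJ
    by_cases h : u ∈ Ico 0 δ ∪ Ico (1 - δ) 1
    · rw [indicator_of_mem h, indicator_of_mem h, e u hu]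
    · rw [indicator_of_notMem h, indicator_of_notMem h]
  · unfold JJ
    by_cases h : u ∈ Ico 0 δ ∪ Ico (1 - δ) 1
    · rw [indicator_of_mem h]
      exact k u hu
    · rw [indicator_of_notMem h, abs_zero]
      exact (abs_nonneg _).trans (k u hu)

lemma Wok_GG (hr : Adm c r) (hφ : Continuous φ) (hε : 0 < ε) {K : ℝ}
    (hK : ∀ u ∈ Ico (0 : ℝ) 1, |cv r μ ε (dst c u 0)| ≤ K) : Wok (GG c r φ μ ε q) := by
  obtain ⟨⟨v, m, e⟩, B, k⟩ := Wok_exp (q := q) hr hε hK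
  obtain ⟨-, B', k'⟩ := Wok.of_continuous hφ
  refine ⟨⟨fun u => φ u * v u, hφ.measurable.mul m, fun u hu => ?_⟩, B' * B, fun u hu => ?_⟩
  · simp only []
    rw [e u hu]
    rfl
  · unfold GG
    rw [abs_mul]
    exact mul_le_mul (k' u hu) (k u hu) (abs_nonneg _) ((abs_nonneg _).trans (k' u hu))

lemma JJ_nonneg (u : ℝ) : 0 ≤ JJ c r μ ε q δ u :=
  indicator_nonneg (fun _ _ => (Real.exp_pos _).le) u

lemma rest_nonneg (hr : Adm c r) (hφ : ∀ u, 0 < φ u) (hδ : 0 < δ) (hδε : ε ≤ δ / 2) {u : ℝ}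
    (hu : u ∈ Ico (0 : ℝ) 1) : wt r φ (μ * q) δ u ≤ GG c r φ μ ε q u := by
  rw [wt_eq hr hδ hδε hu]
  exact mul_le_of_le_one_left (mul_nonneg (hφ u).le (Real.exp_pos _).le) (chi_le_one _ _)

lemma rest_le (hr : Adm c r) (hφ : ∀ u, 0 < φ u) {Φ : ℝ} (hΦ : ∀ u ∈ Ico (0 : ℝ) 1, φ u ≤ Φ)
    (hδ : 0 < δ) (hδε : ε ≤ δ / 2) {u : ℝ} (hu : u ∈ Ico (0 : ℝ) 1) :
    GG c r φ μ ε q u - wt r φ (μ * q) δ u ≤ Φ * JJ c r μ ε q δ u := by
  have hΦ0 : 0 ≤ Φ := (hφ u).le.trans (hΦ u hu)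
  rw [wt_eq hr hδ hδε hu]
  have hG : 0 ≤ GG c r φ μ ε q u := mul_nonneg (hφ u).le (Real.exp_pos _).le
  by_cases h : u ∈ Ico 0 δ ∪ Ico (1 - δ) 1
  · have h1 : JJ c r μ ε q δ u = Real.exp (-(q * cv r μ ε (dst c u 0))) := indicator_of_mem h _
    rw [h1]
    have h2 : GG c r φ μ ε q u ≤ Φ * Real.exp (-(q * cv r μ ε (dst c u 0))) :=
      mul_le_mul_of_nonneg_right (hΦ u hu) (Real.exp_pos _).le
    have h3 := mul_nonneg (chi_nonneg δ u) hG
    linarith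
  · have h1 : chi δ u = 1 := by
      refine chi_eq_one hδ ?_ ?_
      · by_contra hc
        exact h (Or.inl ⟨hu.1, not_le.1 hc⟩)
      · by_contra hc
        exact h (Or.inr ⟨(not_le.1 hc).le, hu.2⟩)
    rw [h1, one_mul, sub_self]
    exact mul_nonneg hΦ0 (JJ_nonneg u)

/-- the truncated difference is small in mean -/
lemma E1 {P : Measure Ω} [IsProbabilityMeasure P] (hr : Adm c r) (hφ : Continuous φ)
    (hφ0 : ∀ u, 0 < φ u) {Φ : ℝ} (hΦ : ∀ u ∈ Ico (0 : ℝ) 1, φ u ≤ Φ) (hΦ0 : 0 ≤ Φ) (hδ : 0 < δ)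
    (hε : 0 < ε) (hδε : ε ≤ δ / 2) {K : ℝ}
    (hK : ∀ u ∈ Ico (0 : ℝ) 1, |cv r μ ε (dst c u 0)| ≤ K)
    (hint : ∀ᵐ x ∂P, IntegrableOn (fun u => Real.exp (ω u x)) (Ico 0 1))
    (hm : ∀ w : ℝ → ℝ, Measurable w → Measurable (mass w ω)) {η : ℝ} (hη : 0 < η)
    (hJ : P {x | η ≤ mass (JJ c r μ ε q δ) ω x} ≤ ENNReal.ofReal η) :
    ∫ x, min 1 (mass (GG c r φ μ ε q) ω x - mass (wt r φ (μ * q) δ) ω x) ∂P ≤ (Φ + 1) * η := by
  have wG := Wok_GG (q := q) (φ := φ) hr hφ hε hK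
  have wJ := Wok_JJ (q := q) (δ := δ) hr hε hK
  have wW := Wok.of_continuous (wt_cont (a := μ * q) hr hφ hδ)
  have mG := mass_meas wG hm
  have mJ := mass_meas wJ hm
  have mW := mass_meas wW hm
  set A : Set Ω := {x | η ≤ mass (JJ c r μ ε q δ) ω x} with hA
  have hAm : MeasurableSet A := measurableSet_le measurable_const mJ
  have h1 : ∀ᵐ x ∂P, min 1 (mass (GG c r φ μ ε q) ω x - mass (wt r φ (μ * q) δ) ω x) ≤
      Φ * η + A.indicator (fun _ => (1 : ℝ)) x := by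
    filter_upwards [hint] with x hx
    have h2 : mass (GG c r φ μ ε q) ω x - mass (wt r φ (μ * q) δ) ω x ≤
        Φ * mass (JJ c r μ ε q δ) ω x := by
      rw [← mass_sub wG wW hx, ← mass_const_mul]
      exact mass_mono (wG.sub wW) (wJ.const_mul Φ) hx fun u hu => rest_le hr hφ0 hΦ hδ hδε hu
    by_cases hxA : x ∈ A
    · rw [indicator_of_mem hxA]
      have := mul_nonneg hΦ0 hη.le
      exact (min_le_left _ _).trans (by linarith)
    · rw [indicator_of_notMem hxA, add_zero]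
      have h3 : mass (JJ c r μ ε q δ) ω x ≤ η := (not_le.1 hxA).le
      exact (min_le_right _ _).trans (h2.trans (mul_le_mul_of_nonneg_left h3 hΦ0))
  have h2 : ∀ᵐ x ∂P, 0 ≤ min 1 (mass (GG c r φ μ ε q) ω x - mass (wt r φ (μ * q) δ) ω x) := by
    filter_upwards [hint] with x hx
    refine le_min zero_le_one (sub_nonneg.2 ?_)
    exact mass_mono wW wG hx fun u hu => rest_nonneg hr hφ0 hδ hδε hu
  have hi1 : Integrable (fun x => min 1 (mass (GG c r φ μ ε q) ω x -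
      mass (wt r φ (μ * q) δ) ω x)) P := by
    refine Integrable.of_bound (C := 1) (measurable_const.min (mG.sub mW)).aestronglyMeasurable ?_
    filter_upwards [h2] with x hx
    rw [Real.norm_eq_abs, abs_of_nonneg hx]
    exact min_le_left _ _
  have hi2 : Integrable (fun x => Φ * η + A.indicator (fun _ => (1 : ℝ)) x) P :=
    (integrable_const _).add ((integrable_const (1 : ℝ)).indicator hAm)
  refine (integral_mono_ae hi1 hi2 h1).trans ?_
  rw [integral_add (integrable_const _) ((integrable_const (1 : ℝ)).indicator hAm), integral_const,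
    integral_indicator hAm, setIntegral_const]
  simp only [probReal_univ, smul_eq_mul, one_mul, mul_one]
  have h3 : P.real A ≤ η := by
    rw [measureReal_def]
    exact ENNReal.toReal_le_of_le_ofReal hη.le hJ
  linarith

/-- the truncation, as a bounded continuous function -/
def f1 : ℝ →ᵇ ℝ := BoundedContinuousFunction.ofNormedAddCommGroup (fun t => min 1 (max 0 t))
  (by fun_prop) 1 (fun t => by
    rw [Real.norm_eq_abs, abs_of_nonneg (le_min zero_le_one (le_max_left _ _))]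
    exact min_le_left _ _)

lemma f1_apply (t : ℝ) : f1 t = min 1 (max 0 t) := rfl

lemma E2 {P : Measure Ω} [IsProbabilityMeasure P] (hr : Adm c r) (hφ : Continuous φ)
    (hφ0 : ∀ u, 0 < φ u) {δ' : ℝ} (hδ' : 0 < δ') (hδ : δ' ≤ δ)
    (hε : 0 < ε) (hδε : ε ≤ δ' / 2) {K : ℝ}
    (hK : ∀ u ∈ Ico (0 : ℝ) 1, |cv r μ ε (dst c u 0)| ≤ K)
    (hint : ∀ᵐ x ∂P, IntegrableOn (fun u => Real.exp (ω u x)) (Ico 0 1))
    (hm : ∀ w : ℝ → ℝ, Measurable w → Measurable (mass w ω)) :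
    ∫ x, f1 (mass (fun u => wt r φ (μ * q) δ' u - wt r φ (μ * q) δ u) ω x) ∂P ≤
      ∫ x, min 1 (mass (GG c r φ μ ε q) ω x - mass (wt r φ (μ * q) δ) ω x) ∂P := by
  have wG := Wok_GG (q := q) (φ := φ) hr hφ hε hK
  have hδ0 : 0 < δ := by linarith
  have wW := Wok.of_continuous (wt_cont (a := μ * q) hr hφ hδ0)
  have wW' := Wok.of_continuous (wt_cont (a := μ * q) hr hφ hδ')
  have mG := mass_meas wG hm
  have mW := mass_meas wW hm
  have mD := mass_meas (wW'.sub wW) hm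
  have h2 : ∀ᵐ x ∂P, 0 ≤ min 1 (mass (GG c r φ μ ε q) ω x - mass (wt r φ (μ * q) δ) ω x) := by
    filter_upwards [hint] with x hx
    refine le_min zero_le_one (sub_nonneg.2 ?_)
    exact mass_mono wW wG hx fun u hu => rest_nonneg hr hφ0 hδ0 (by linarith) hu
  refine integral_mono_ae ?_ ?_ ?_
  · refine Integrable.of_bound (C := 1) (f1.continuous.measurable.comp mD).aestronglyMeasurable ?_
    refine ae_of_all _ fun x => ?_
    rw [f1_apply, Real.norm_eq_abs,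
      abs_of_nonneg (le_min zero_le_one (le_max_left _ _))]
    exact min_le_left _ _
  · refine Integrable.of_bound (C := 1) (measurable_const.min (mG.sub mW)).aestronglyMeasurable ?_
    filter_upwards [h2] with x hx
    rw [Real.norm_eq_abs, abs_of_nonneg hx]
    exact min_le_left _ _
  · filter_upwards [hint] with x hx
    rw [f1_apply]
    have h3 : 0 ≤ mass (GG c r φ μ ε q) ω x - mass (wt r φ (μ * q) δ) ω x :=
      sub_nonneg.2 (mass_mono wW wG hx fun u hu => rest_nonneg hr hφ0 hδ0 (by linarith) hu)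
    refine min_le_min le_rfl (max_le h3 ?_)
    rw [mass_sub wW' wW hx]
    have h4 : mass (wt r φ (μ * q) δ') ω x ≤ mass (GG c r φ μ ε q) ω x :=
      mass_mono wW' wG hx fun u hu => rest_nonneg hr hφ0 hδ' hδε hu
    linarith

end

end Pool.Agent.L5helper64.CG
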