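import Pool.Agent.L5helper64.CG.LawB

/-! LAW for helper98 (MP_e22585_pr): the limit measure -/

set_option autoImplicit false
set_option linter.unusedSectionVars false
set_option linter.unusedVariables false

open MeasureTheory ProbabilityTheory Filter Topology Set
open scoped ENNReal BoundedContinuousFunction

namespace Pool.Agent.L5helper64.CG

open Pool.Agent.L5helper98.CG

noncomputable section

/-- from bounded Lipschitz functions to bounded continuous functions -/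
lemma lip_to_bdd {Ω : ℝ → Type} [∀ ε, MeasurableSpace (Ω ε)] {P : ∀ ε, Measure (Ω ε)}
    (hP : ∀ ε, IsProbabilityMeasure (P ε)) {Z : ∀ ε, Ω ε → ℝ}
    (hZ : ∀ᶠ ε in 𝓝[>] (0 : ℝ), AEMeasurable (Z ε) (P ε)) {Ω' : Type} [MeasurableSpace Ω']
    {P' : Measure Ω'} [IsProbabilityMeasure P'] {Y : Ω' → ℝ} (hY : AEMeasurable Y P')
    (h : ∀ F : ℝ → ℝ, (∃ C : ℝ, ∀ x y, dist (F x) (F y) ≤ C) → (∃ L, LipschitzWith L F) →
      Tendsto (fun ε => ∫ x, F (Z ε x) ∂(P ε)) (𝓝[>] 0) (𝓝 (∫ y, F (Y y) ∂P'))) (f : ℝ →ᵇ ℝ) :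
    Tendsto (fun ε => ∫ x, f (Z ε x) ∂(P ε)) (𝓝[>] 0) (𝓝 (∫ y, f (Y y) ∂P')) := by
  classical
  let ν : ℝ → ProbabilityMeasure ℝ := fun ε =>
    if hε : AEMeasurable (Z ε) (P ε) then
      ⟨(P ε).map (Z ε), haveI := hP ε; Measure.isProbabilityMeasure_map hε⟩
    else ⟨Measure.dirac 0, inferInstance⟩
  let ν' : ProbabilityMeasure ℝ := ⟨P'.map Y, Measure.isProbabilityMeasure_map hY⟩
  have e : ∀ F : ℝ → ℝ, Continuous F → (fun ε => ∫ x, F (Z ε x) ∂(P ε)) =ᶠ[𝓝[>] 0]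
      fun ε => ∫ x, F x ∂(ν ε : Measure ℝ) := by
    intro F hF
    filter_upwards [hZ] with ε hε
    have h1 : (ν ε : Measure ℝ) = (P ε).map (Z ε) := by
      simp only [ν, dif_pos hε]
      rfl
    rw [h1, integral_map hε hF.aestronglyMeasurable]
  have e' : ∀ F : ℝ → ℝ, Continuous F → ∫ y, F (Y y) ∂P' = ∫ x, F x ∂(ν' : Measure ℝ) := by
    intro F hF
    change _ = ∫ x, F x ∂(P'.map Y)
    rw [integral_map hY hF.aestronglyMeasurable]
  have h1 : Tendsto ν (𝓝[>] 0) (𝓝 ν') := by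
    rw [tendsto_iff_forall_lipschitz_integral_tendsto]
    intro F hC hL
    have hF : Continuous F := hL.choose_spec.continuous
    have h2 := h F hC hL
    rw [e' F hF] at h2
    exact h2.congr' (e F hF)
  rw [ProbabilityMeasure.tendsto_iff_forall_integral_tendsto] at h1
  have h2 := h1 f
  rw [← e' f f.continuous] at h2
  exact h2.congr' (e f f.continuous).symm

/-- the cut-off parameters -/
def dn (n : ℕ) : ℝ := 1 / ((n : ℝ) + 1)

lemma dn_pos (n : ℕ) : 0 < dn n := by unfold dn; positivity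

lemma dn_anti {n m : ℕ} (h : n ≤ m) : dn m ≤ dn n := by
  unfold dn
  have : (n : ℝ) ≤ m := by exact_mod_cast h
  exact one_div_le_one_div_of_le (by positivity) (by linarith)

lemma dn_lim : Tendsto dn atTop (𝓝 0) := tendsto_one_div_add_atTop_nhds_zero_nat

variable {c : Bool} {r φ : ℝ → ℝ} {a : ℝ}

lemma wt_out (r φ : ℝ → ℝ) (a δ : ℝ) {u : ℝ} (hu : u ∉ Icc (0 : ℝ) 1) : wt r φ a δ u = 0 := by
  unfold wt hh
  rw [indicator_of_notMem (fun h => hu ⟨h.1.le, h.2.le⟩), mul_zero]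

lemma wt_bdd (hr : Adm c r) (hφ : Continuous φ) (hφ0 : ∀ u, 0 < φ u) {δ : ℝ} (hδ : 0 < δ) :
    ∃ K : ℝ, 0 ≤ K ∧ ∀ u, wt r φ a δ u ≤ K := by
  obtain ⟨K, hK⟩ := (isCompact_Icc (a := (0 : ℝ)) (b := 1)).exists_bound_of_continuousOn
    (wt_cont (a := a) hr hφ hδ).continuousOn
  refine ⟨|K|, abs_nonneg K, fun u => ?_⟩
  by_cases hu : u ∈ Icc (0 : ℝ) 1
  · have := hK u hu
    rw [Real.norm_eq_abs] at this
    exact (le_abs_self _).trans (this.trans (le_abs_self K))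
  · rw [wt_out r φ a δ hu]
    exact abs_nonneg K

/-- the masses of the cut-off weights -/
def Yn (r φ : ℝ → ℝ) (a : ℝ) (ν : Measure ℝ) (n : ℕ) : ℝ := ∫ u in Icc (0 : ℝ) 1, wt r φ a (dn n) u ∂ν

/-- the mass of the limit weight -/
def Li (r φ : ℝ → ℝ) (a : ℝ) (ν : Measure ℝ) : ℝ≥0∞ := ∫⁻ u, ENNReal.ofReal (hh r φ a u) ∂ν

lemma wt_int (hr : Adm c r) (hφ : Continuous φ) (hφ0 : ∀ u, 0 < φ u) {δ : ℝ} (hδ : 0 < δ)
    {ν : Measure ℝ} (hν : ν univ < ∞) : Integrable (wt r φ a δ) ν := by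
  haveI : IsFiniteMeasure ν := ⟨hν⟩
  obtain ⟨K, hK0, hK⟩ := wt_bdd (a := a) hr hφ hφ0 hδ
  refine Integrable.of_bound (C := K) (wt_cont hr hφ hδ).aestronglyMeasurable ?_
  refine ae_of_all _ fun u => ?_
  rw [Real.norm_eq_abs, abs_of_nonneg (wt_nonneg hr hφ0 δ u)]
  exact hK u

lemma Yn_eq (ν : Measure ℝ) (n : ℕ) : Yn r φ a ν n = ∫ u, wt r φ a (dn n) u ∂ν :=
  setIntegral_eq_integral_of_forall_compl_eq_zero fun _ hu => wt_out r φ a _ hu

lemma Yn_sub (hr : Adm c r) (hφ : Continuous φ) (hφ0 : ∀ u, 0 < φ u) {ν : Measure ℝ}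
    (hν : ν univ < ∞) (n m : ℕ) :
    ∫ u in Icc (0 : ℝ) 1, (wt r φ a (dn n) u - wt r φ a (dn m) u) ∂ν = Yn r φ a ν n - Yn r φ a ν m :=
  integral_sub (wt_int hr hφ hφ0 (dn_pos n) hν).integrableOn
    (wt_int hr hφ hφ0 (dn_pos m) hν).integrableOn

lemma ofReal_Yn (hr : Adm c r) (hφ : Continuous φ) (hφ0 : ∀ u, 0 < φ u) {ν : Measure ℝ}
    (hν : ν univ < ∞) (n : ℕ) :
    ENNReal.ofReal (Yn r φ a ν n) = ∫⁻ u, ENNReal.ofReal (wt r φ a (dn n) u) ∂ν := by
  rw [Yn_eq]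
  exact ofReal_integral_eq_lintegral_ofReal (wt_int hr hφ hφ0 (dn_pos n) hν)
    (ae_of_all _ fun u => wt_nonneg hr hφ0 _ u)

lemma ofReal_Yn_tendsto (hr : Adm c r) (hφ : Continuous φ) (hφ0 : ∀ u, 0 < φ u) {ν : Measure ℝ}
    (hν : ν univ < ∞) :
    Tendsto (fun n => ENNReal.ofReal (Yn r φ a ν n)) atTop (𝓝 (Li r φ a ν)) := by
  simp_rw [ofReal_Yn hr hφ hφ0 hν]
  refine lintegral_tendsto_of_tendsto_of_monotone (fun n => ?_) (ae_of_all _ fun u => ?_)
    (ae_of_all _ fun u => ?_)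
  · exact (wt_cont hr hφ (dn_pos n)).measurable.ennreal_ofReal.aemeasurable
  · intro n m h
    exact ENNReal.ofReal_le_ofReal (wt_mono hr hφ0 (dn_pos m) (dn_anti h) u)
  · exact (ENNReal.continuous_ofReal.tendsto _).comp (wt_tendsto r φ a u dn_pos dn_lim)

lemma Yn_nonneg (hr : Adm c r) (hφ0 : ∀ u, 0 < φ u) (ν : Measure ℝ) (n : ℕ) : 0 ≤ Yn r φ a ν n :=
  integral_nonneg fun u => wt_nonneg hr hφ0 _ u

lemma Yn_tendsto (hr : Adm c r) (hφ : Continuous φ) (hφ0 : ∀ u, 0 < φ u) {ν : Measure ℝ}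
    (hν : ν univ < ∞) (hL : Li r φ a ν < ∞) :
    Tendsto (fun n => Yn r φ a ν n) atTop (𝓝 (Li r φ a ν).toReal) := by
  have h1 := (ENNReal.tendsto_toReal hL.ne).comp (ofReal_Yn_tendsto (a := a) hr hφ hφ0 hν)
  refine h1.congr fun n => ?_
  rw [Function.comp_apply, ENNReal.toReal_ofReal (Yn_nonneg hr hφ0 ν n)]

lemma Yn_atTop (hr : Adm c r) (hφ : Continuous φ) (hφ0 : ∀ u, 0 < φ u) {ν : Measure ℝ}
    (hν : ν univ < ∞) (hL : Li r φ a ν = ∞) : Tendsto (fun n => Yn r φ a ν n) atTop atTop := by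
  have h1 := ofReal_Yn_tendsto (a := a) hr hφ hφ0 hν
  rw [hL] at h1
  exact ENNReal.tendsto_ofReal_nhds_top.1 h1

variable {Ω' : Type} [MeasurableSpace Ω'] {M : Ω' → Measure ℝ}

lemma Li_meas (hr : Adm c r) (hφ : Continuous φ) (hM : Measurable M) :
    Measurable fun y => Li r φ a (M y) :=
  (Measure.measurable_lintegral (hh_meas hr hφ a).ennreal_ofReal).comp hM

lemma Yn_meas (hr : Adm c r) (hφ : Continuous φ) (hφ0 : ∀ u, 0 < φ u) (hM : Measurable M) (n : ℕ) :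
    Measurable fun y => Yn r φ a (M y) n := by
  have h1 : (fun y => Yn r φ a (M y) n) =
      fun y => (∫⁻ u, ENNReal.ofReal (wt r φ a (dn n) u) ∂(M y)).toReal := by
    funext y
    rw [Yn_eq, integral_eq_lintegral_of_nonneg_ae (ae_of_all _ fun u => wt_nonneg hr hφ0 _ u)
      (wt_cont hr hφ (dn_pos n)).aestronglyMeasurable]
  rw [h1]
  exact ((Measure.measurable_lintegral
    (wt_cont hr hφ (dn_pos n)).measurable.ennreal_ofReal).comp hM).ennreal_toReal

lemma integral_Ioo (hr : Adm c r) (hφ : Continuous φ) (hφ0 : ∀ u, 0 < φ u) (ν : Measure ℝ) :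
    ∫ u in Ioo (0 : ℝ) 1, r u ^ a * φ u ∂ν = (Li r φ a ν).toReal := by
  rw [← integral_indicator measurableSet_Ioo]
  exact integral_eq_lintegral_of_nonneg_ae (ae_of_all _ fun u => hh_nonneg hr hφ0 u)
    (hh_meas hr hφ a).aestronglyMeasurable

lemma intOn_Ioo (hr : Adm c r) (hφ : Continuous φ) (hφ0 : ∀ u, 0 < φ u) {ν : Measure ℝ}
    (hL : Li r φ a ν < ∞) : IntegrableOn (fun u => r u ^ a * φ u) (Ioo 0 1) ν := by
  rw [← integrable_indicator_iff measurableSet_Ioo]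
  refine ⟨(hh_meas hr hφ a).aestronglyMeasurable, ?_⟩
  exact (hasFiniteIntegral_iff_ofReal (f := hh r φ a)
    (ae_of_all _ fun u => hh_nonneg hr hφ0 u)).2 hL

lemma f1_nonneg (t : ℝ) : 0 ≤ f1 t := le_min zero_le_one (le_max_left _ _)

lemma f1_le_one (t : ℝ) : f1 t ≤ 1 := min_le_left _ _

/-- the limit mass is a.s. finite -/
lemma Li_fin {P' : Measure Ω'} [IsProbabilityMeasure P'] (hr : Adm c r) (hφ : Continuous φ)
    (hφ0 : ∀ u, 0 < φ u) (hM : Measurable M) (hfin : ∀ᵐ y ∂P', M y univ < ∞)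
    (h : ∀ η : ℝ, 0 < η → ∃ m : ℕ, ∀ n ≥ m,
      ∫ y, f1 (∫ u in Icc (0 : ℝ) 1, (wt r φ a (dn n) u - wt r φ a (dn m) u) ∂(M y)) ∂P' ≤ η) :
    ∀ᵐ y ∂P', Li r φ a (M y) < ∞ := by
  set N : Set Ω' := {y | Li r φ a (M y) = ∞} with hN
  have hNm : MeasurableSet N := (Li_meas hr hφ hM) (measurableSet_singleton ∞)
  have key : ∀ η : ℝ, 0 < η → P'.real N ≤ η := by
    intro η hη
    obtain ⟨m, hm⟩ := h η hη
    have hmeas : ∀ n, Measurable fun y => f1 (Yn r φ a (M y) n - Yn r φ a (M y) m) := fun n =>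
      f1.continuous.measurable.comp ((Yn_meas hr hφ hφ0 hM n).sub (Yn_meas hr hφ hφ0 hM m))
    have hint : ∀ n, Integrable (fun y => f1 (Yn r φ a (M y) n - Yn r φ a (M y) m)) P' := by
      intro n
      refine Integrable.of_bound (C := 1) (hmeas n).aestronglyMeasurable (ae_of_all _ fun y => ?_)
      rw [Real.norm_eq_abs, abs_of_nonneg (f1_nonneg _)]
      exact f1_le_one _
    have h1 : Tendsto (fun n => ∫ y, N.indicator
        (fun y => f1 (Yn r φ a (M y) n - Yn r φ a (M y) m)) y ∂P') atTop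
        (𝓝 (∫ y, N.indicator (fun _ => (1 : ℝ)) y ∂P')) := by
      refine tendsto_integral_of_dominated_convergence (fun _ => 1) (fun n => ?_)
        (integrable_const _) (fun n => ?_) ?_
      · exact ((hmeas n).indicator hNm).aestronglyMeasurable
      · refine ae_of_all _ fun y => ?_
        by_cases hy : y ∈ N
        · rw [indicator_of_mem hy, Real.norm_eq_abs, abs_of_nonneg (f1_nonneg _)]
          exact f1_le_one _
        · rw [indicator_of_notMem hy, norm_zero]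
          exact zero_le_one
      · filter_upwards [hfin] with y hy
        by_cases hyN : y ∈ N
        · simp_rw [indicator_of_mem hyN]
          have h2 := Yn_atTop (a := a) hr hφ hφ0 hy hyN
          refine tendsto_const_nhds.congr' ?_
          filter_upwards [h2.eventually_ge_atTop (Yn r φ a (M y) m + 1)] with n hn
          rw [f1_apply, max_eq_right (by linarith), min_eq_left (by linarith)]
        · simp_rw [indicator_of_notMem hyN]
          exact tendsto_const_nhds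
    rw [integral_indicator hNm, setIntegral_const, smul_eq_mul, mul_one] at h1
    refine le_of_tendsto h1 ?_
    filter_upwards [eventually_ge_atTop m] with n hn
    have h3 : ∫ y, f1 (∫ u in Icc (0 : ℝ) 1, (wt r φ a (dn n) u - wt r φ a (dn m) u) ∂(M y)) ∂P' =
        ∫ y, f1 (Yn r φ a (M y) n - Yn r φ a (M y) m) ∂P' := by
      refine integral_congr_ae ?_
      filter_upwards [hfin] with y hy
      rw [Yn_sub hr hφ hφ0 hy]
    refine le_trans ?_ (h3 ▸ hm n hn)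
    refine integral_mono_ae ((hint n).indicator hNm) (hint n) (ae_of_all _ fun y => ?_)
    exact indicator_le_self' (fun _ _ => f1_nonneg _) y
  have h0 : P'.real N = 0 :=
    le_antisymm (le_of_forall_pos_le_add fun η hη => by rw [zero_add]; exact key η hη)
      measureReal_nonneg
  have h1 : P' N = 0 := by
    rw [measureReal_def, ENNReal.toReal_eq_zero_iff] at h0
    exact h0.resolve_right (measure_ne_top P' N)
  have h2 : ∀ᵐ y ∂P', y ∉ N := measure_eq_zero_iff_ae_notMem.1 h1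
  filter_upwards [h2] with y hy
  exact lt_top_iff_ne_top.2 hy

end

end Pool.Agent.L5helper64.CG
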